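import Pool.Agent.Q8.LP.Final

/-!
# MP_bbed2d_pr, Q1: the hitting-time-type bound fails for every `p > 2`

Example: a path `x_0, …, x_L` with `p`-harmonic profile of constant slope, a pendant boundary
vertex at each `x_i` carrying the value `h(x_i)` (its edge has zero gradient, so for `p > 2` it is
invisible to first order), and a boundary hub joined to all pendants (so the diameter is at most
`4`).  Starting slightly above `h`, the relaxation needs `≍ L³` updates, while the proposed bound
is `O(L² log L)`.
-/

namespace Pool.Agent.Results.MP_bbed2d_pr.BoundFails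

open Q8.LP
open scoped ENNReal

theorem result (p : ℝ) (hp : 2 < p) (C : ℝ) :
    ∃ (V : Type) (_ : Fintype V) (G : SimpleGraph V) (I : Finset V) (_ : Nonempty I)
      (f₀ h : V → ℝ) (ε : ℝ), G.Connected ∧ I ≠ Finset.univ ∧
      (∀ v, 0 ≤ f₀ v ∧ f₀ v ≤ 1) ∧ IsPHarmonicExt G p I f₀ h ∧ 0 < ε ∧ ε ≤ 1 / 2 ∧
      ENNReal.ofReal (C * I.card * G.edgeSet.ncard * G.diam * Real.log (Fintype.card V / ε))
        < expectedTime G p I f₀ h ε :=
  main p hp C

end Pool.Agent.Results.MP_bbed2d_pr.BoundFails
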